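import Pool.Agent.Helper2.KX.S2

/-!
# Potential density of Calabi-Yau complete intersections in products of projective planes

Let `n ≥ 1` and let `X` be the zero locus, in the product of `n + 1` projective planes over a
number field, of two forms `F`, `G` of multidegrees `d`, `d'` with positive entries and
`d + d' = (3, ..., 3)`.  These are the complete intersections of two ample divisors with trivial
numerical canonical class; the dimension is `2 n`.  We prove that if the coefficients of `F` and
`G` do not satisfy one nonzero polynomial equation with integer coefficients (depending only on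
`n`, `d`, `d'`) then every irreducible component of `X` that dominates the product of the first
`n` planes is potentially dense.
-/

namespace Pool.Agent.Helper2.KX.Final.ProductsOfPlanes

open AlgebraicGeometry CategoryTheory Pool.Agent.Helper15 MvPolynomial

universe u

/-- The monomials of multidegree `d` in the homogeneous coordinates of the planes. -/
abbrev Mono {N : ℕ} (d : Fin N → ℕ) := ∀ r, Sym (Fin 3) (d r)

variable {K : Type u} [Field K] {n : ℕ}

/-- The homogeneous coordinates `(1, x, y)` of the plane `r` in the affine chart. -/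
noncomputable def coord (K : Type u) [Field K] (n : ℕ) (r : Fin (n + 1)) :
    Fin 3 → MvPolynomial (Fin (n + 1) × Fin 2) K :=
  ![1, X (r, 0), X (r, 1)]

/-- The form of multidegree `d` with the coefficients `a`, in the affine chart. -/
noncomputable def form (d : Fin (n + 1) → ℕ) (a : Mono d → K) :
    MvPolynomial (Fin (n + 1) × Fin 2) K :=
  ∑ s : Mono d, C (a s) * ∏ r, ((s r : Multiset (Fin 3)).map (coord K n r)).prod

/-- No nonzero polynomial in the coordinates of the first `n` planes is in `P`. -/
def Dominant (P : Ideal (MvPolynomial (Fin (n + 1) × Fin 2) K)) : Prop :=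
  ∀ Φ : MvPolynomial (Fin n × Fin 2) K, rename (Prod.map Fin.castSucc id) Φ ∈ P → Φ = 0

theorem result (n : ℕ) (hn : 1 ≤ n) (d d' : Fin (n + 1) → ℕ) (hd : ∀ r, 0 < d r)
    (hd' : ∀ r, 0 < d' r) (h : ∀ r, d r + d' r = 3) :
    ∃ Δ : MvPolynomial (Mono d ⊕ Mono d') ℤ, Δ ≠ 0 ∧
    ∀ (K : Type u) [Field K] [NumberField K] (a : Mono d → K) (b : Mono d' → K),
      aeval (Sum.elim a b) Δ ≠ 0 →
      Dominant (Ideal.span {form d a, form d' b}) ∧
      (∃ P : Ideal (MvPolynomial (Fin (n + 1) × Fin 2) K), P.IsPrime ∧
        form d a ∈ P ∧ form d' b ∈ P ∧ Dominant P) ∧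
      ∀ P : Ideal (MvPolynomial (Fin (n + 1) × Fin 2) K), P.IsPrime →
        form d a ∈ P → form d' b ∈ P → Dominant P →
        ∀ (X : Scheme.{u}) (s : X ⟶ Spec (CommRingCat.of K)) [IrreducibleSpace X],
          BirationalOver K X (Spec (CommRingCat.of (MvPolynomial (Fin (n + 1) × Fin 2) K ⧸ P))) s
            (Spec.map (CommRingCat.ofHom
              (algebraMap K (MvPolynomial (Fin (n + 1) × Fin 2) K ⧸ P)))) →
          PotentiallyDense K X s := by
  obtain ⟨Δ, hΔ, hK⟩ := Helper2.KX.main_all.{u} n hn d d' hd hd' h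
  refine ⟨Δ, hΔ, fun K _ _ a b hab => ?_⟩
  obtain ⟨⟨P, hP, hF, hG, hdom⟩, h2⟩ := hK K a b hab
  refine ⟨fun Φ hΦ => hdom Φ ?_, ⟨P, hP, hF, hG, hdom⟩, h2⟩
  refine (Ideal.span_le.mpr ?_) hΦ
  rintro x (rfl | rfl)
  · exact hF
  · exact hG

end Pool.Agent.Helper2.KX.Final.ProductsOfPlanes
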